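import Pool.Agent.Helper67.NO.St4

/-!
# Project NO, module CAL: algebra of the action of matrices on brackets
-/

set_option autoImplicit false

namespace Pool.Agent.Helper28.NO

open Matrix
open Pool.Agent.Helper67.NO
open scoped Matrix.Norms.Frobenius ContDiff Topology ComplexOrder

variable {n : Type} [Fintype n] [DecidableEq n]

/-- entries of the action -/
lemma gact_apply (g : Matrix n n ℂ) (μ : n → Matrix n n ℂ) (i k j : n) :
    gact g μ i k j = ∑ l, g⁻¹ l i * (g * μ l * g⁻¹) k j := by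
  unfold gact
  rw [Matrix.sum_apply]
  rfl

lemma gact_mul (g h : Matrix n n ℂ) (μ : n → Matrix n n ℂ) : gact (g * h) μ = gact g (gact h μ) := by
  funext i
  unfold gact
  have e1 : ∀ l : n, g⁻¹ l i • (g * (∑ j, h⁻¹ j l • (h * μ j * h⁻¹)) * g⁻¹) =
      ∑ j, (h⁻¹ j l * g⁻¹ l i) • (g * h * μ j * (g * h)⁻¹) := by
    intro l
    rw [Finset.mul_sum, Finset.sum_mul, Finset.smul_sum]
    apply Finset.sum_congr rfl
    intro j _
    rw [Matrix.mul_smul, Matrix.smul_mul, smul_smul, mul_comm (g⁻¹ l i), Matrix.mul_inv_rev]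
    simp only [mul_assoc]
  simp only [e1]
  rw [Finset.sum_comm]
  apply Finset.sum_congr rfl
  intro j _
  rw [← Finset.sum_smul, Matrix.mul_inv_rev]
  rfl

lemma gact_one (μ : n → Matrix n n ℂ) : gact 1 μ = μ := by
  funext i
  unfold gact
  rw [inv_one, Finset.sum_eq_single i]
  · rw [Matrix.one_apply_eq, one_smul, one_mul, mul_one]
  · intro j _ hj
    rw [Matrix.one_apply_ne hj, zero_smul]
  · intro hc
    exact absurd (Finset.mem_univ i) hc

lemma gact_anti (g : Matrix n n ℂ) (μ : n → Matrix n n ℂ) (hμ : ∀ i j k, μ i k j = - μ j k i) (i j k : n) :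
    gact g μ i k j = - gact g μ j k i := by
  rw [gact_apply, gact_apply]
  have e : ∀ a b : n, (∑ l, g⁻¹ l a * (g * μ l * g⁻¹) k b) =
      ∑ l, ∑ q, g⁻¹ l a * (∑ p, g k p * μ l p q) * g⁻¹ q b := by
    intro a b
    apply Finset.sum_congr rfl
    intro l _
    rw [Matrix.mul_apply, Finset.mul_sum]
    apply Finset.sum_congr rfl
    intro q _
    rw [Matrix.mul_apply]
    ring
  rw [e i j, e j i, Finset.sum_comm, ← Finset.sum_neg_distrib]
  apply Finset.sum_congr rfl
  intro q _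
  rw [← Finset.sum_neg_distrib]
  apply Finset.sum_congr rfl
  intro l _
  have h : (∑ p, g k p * μ l p q) = - ∑ p, g k p * μ q p l := by
    rw [← Finset.sum_neg_distrib]
    apply Finset.sum_congr rfl
    intro p _
    rw [hμ l q p]
    ring
  rw [h]
  ring

omit [DecidableEq n] in
lemma br_sum_smul (x y : n → Matrix n n ℂ) (a b : n → ℂ) :
    br (∑ l, a l • x l) (∑ m, b m • y m) = ∑ l, ∑ m, (a l * b m) • br (x l) (y m) := by
  unfold br
  rw [Finset.sum_mul, Finset.sum_mul]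
  have e1 : ∀ l, a l • x l * ∑ m, b m • y m = ∑ m, (a l * b m) • (x l * y m) := by
    intro l
    rw [Finset.mul_sum]
    apply Finset.sum_congr rfl
    intro m _
    rw [Matrix.smul_mul, Matrix.mul_smul, smul_smul]
  have e2 : ∀ m, b m • y m * ∑ l, a l • x l = ∑ l, (a l * b m) • (y m * x l) := by
    intro m
    rw [Finset.mul_sum]
    apply Finset.sum_congr rfl
    intro l _
    rw [Matrix.smul_mul, Matrix.mul_smul, smul_smul, mul_comm (b m)]
  simp only [e1, e2]
  rw [Finset.sum_comm (f := fun m l => (a l * b m) • (y m * x l)), ← Finset.sum_sub_distrib]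
  apply Finset.sum_congr rfl
  intro l _
  rw [← Finset.sum_sub_distrib]
  apply Finset.sum_congr rfl
  intro m _
  rw [smul_sub]

lemma conj_mul_conj (g x y : Matrix n n ℂ) (hg : g⁻¹ * g = 1) :
    g * x * g⁻¹ * (g * y * g⁻¹) = g * (x * y) * g⁻¹ := by
  calc g * x * g⁻¹ * (g * y * g⁻¹) = g * x * (g⁻¹ * g) * (y * g⁻¹) := by simp only [mul_assoc]
    _ = g * (x * y) * g⁻¹ := by rw [hg, mul_one]; simp only [mul_assoc]

lemma br_conj (g x y : Matrix n n ℂ) (hg : g⁻¹ * g = 1) :
    br (g * x * g⁻¹) (g * y * g⁻¹) = g * br x y * g⁻¹ := by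
  unfold br
  rw [conj_mul_conj g x y hg, conj_mul_conj g y x hg, mul_sub, sub_mul]

lemma gact_jacobi (g : Matrix n n ℂ) (hg : g⁻¹ * g = 1) (μ : n → Matrix n n ℂ)
    (hμ : ∀ i j, br (μ i) (μ j) = ∑ k, μ i k j • μ k) (i j : n) :
    br (gact g μ i) (gact g μ j) = ∑ k, gact g μ i k j • gact g μ k := by
  have h1 : br (gact g μ i) (gact g μ j) =
      ∑ k, (∑ l, ∑ m, g⁻¹ l i * g⁻¹ m j * μ l k m) • (g * μ k * g⁻¹) := by
    unfold gact
    rw [br_sum_smul]
    have e : ∀ l m : n, (g⁻¹ l i * g⁻¹ m j) • br (g * μ l * g⁻¹) (g * μ m * g⁻¹) =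
        ∑ k, (g⁻¹ l i * g⁻¹ m j * μ l k m) • (g * μ k * g⁻¹) := by
      intro l m
      rw [br_conj g _ _ hg, hμ l m, Finset.mul_sum, Finset.sum_mul, Finset.smul_sum]
      apply Finset.sum_congr rfl
      intro k _
      rw [Matrix.mul_smul, Matrix.smul_mul, smul_smul]
    simp only [e]
    have e2 : ∀ l : n, (∑ m, ∑ k, (g⁻¹ l i * g⁻¹ m j * μ l k m) • (g * μ k * g⁻¹)) =
        ∑ k, (∑ m, g⁻¹ l i * g⁻¹ m j * μ l k m) • (g * μ k * g⁻¹) := by
      intro l
      rw [Finset.sum_comm]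
      apply Finset.sum_congr rfl
      intro k _
      rw [Finset.sum_smul]
    simp only [e2]
    rw [Finset.sum_comm]
    apply Finset.sum_congr rfl
    intro k _
    rw [Finset.sum_smul]
  have h2 : (∑ k, gact g μ i k j • gact g μ k) =
      ∑ k, (∑ k', gact g μ i k' j * g⁻¹ k k') • (g * μ k * g⁻¹) := by
    have e : ∀ k' : n, gact g μ i k' j • gact g μ k' = ∑ k, (gact g μ i k' j * g⁻¹ k k') • (g * μ k * g⁻¹) := by
      intro k'
      conv_lhs => rw [show gact g μ k' = ∑ k, g⁻¹ k k' • (g * μ k * g⁻¹) from rfl]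
      rw [Finset.smul_sum]
      apply Finset.sum_congr rfl
      intro k _
      rw [smul_smul]
    simp only [e]
    rw [Finset.sum_comm]
    apply Finset.sum_congr rfl
    intro k _
    rw [Finset.sum_smul]
  rw [h1, h2]
  apply Finset.sum_congr rfl
  intro k _
  congr 1
  have e3 : ∀ l : n, (∑ k', g⁻¹ k k' * (g * μ l * g⁻¹) k' j) = ∑ m, μ l k m * g⁻¹ m j := by
    intro l
    have h3 : (g⁻¹ * (g * μ l * g⁻¹)) k j = (μ l * g⁻¹) k j := by
      rw [← mul_assoc, ← mul_assoc, hg, one_mul]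
    rw [Matrix.mul_apply, Matrix.mul_apply] at h3
    exact h3
  calc (∑ l, ∑ m, g⁻¹ l i * g⁻¹ m j * μ l k m) = ∑ l, g⁻¹ l i * ∑ m, μ l k m * g⁻¹ m j := by
        apply Finset.sum_congr rfl
        intro l _
        rw [Finset.mul_sum]
        apply Finset.sum_congr rfl
        intro m _
        ring
    _ = ∑ l, g⁻¹ l i * ∑ k', g⁻¹ k k' * (g * μ l * g⁻¹) k' j := by simp only [e3]
    _ = ∑ l, ∑ k', g⁻¹ l i * (g * μ l * g⁻¹) k' j * g⁻¹ k k' := by
        apply Finset.sum_congr rfl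
        intro l _
        rw [Finset.mul_sum]
        apply Finset.sum_congr rfl
        intro k' _
        ring
    _ = ∑ k', ∑ l, g⁻¹ l i * (g * μ l * g⁻¹) k' j * g⁻¹ k k' := Finset.sum_comm
    _ = ∑ k', gact g μ i k' j * g⁻¹ k k' := by
        apply Finset.sum_congr rfl
        intro k' _
        rw [gact_apply, Finset.sum_mul]

lemma Kil_gact (g : Matrix n n ℂ) (hg : g⁻¹ * g = 1) (μ : n → Matrix n n ℂ) :
    Kil (gact g μ) = (g⁻¹)ᵀ * Kil μ * g⁻¹ := by
  ext i j
  have h1 : Kil (gact g μ) i j = ∑ l, ∑ m, g⁻¹ l i * g⁻¹ m j * trace (μ l * μ m) := by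
    change trace ((∑ l, g⁻¹ l i • (g * μ l * g⁻¹)) * (∑ m, g⁻¹ m j • (g * μ m * g⁻¹))) = _
    rw [Finset.sum_mul, Matrix.trace_sum]
    apply Finset.sum_congr rfl
    intro l _
    rw [Finset.mul_sum, Matrix.trace_sum]
    apply Finset.sum_congr rfl
    intro m _
    rw [Matrix.smul_mul, Matrix.mul_smul, smul_smul, conj_mul_conj g _ _ hg, Matrix.trace_smul, smul_eq_mul]
    congr 1
    rw [Matrix.trace_mul_comm, ← mul_assoc, hg, one_mul]
  rw [h1, Matrix.mul_apply, Finset.sum_comm]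
  apply Finset.sum_congr rfl
  intro m _
  rw [Matrix.mul_apply, Finset.sum_mul]
  apply Finset.sum_congr rfl
  intro l _
  rw [Matrix.transpose_apply]
  change _ = g⁻¹ l i * trace (μ l * μ m) * g⁻¹ m j
  ring

omit [DecidableEq n] in
lemma trace_br (X a b : Matrix n n ℂ) : trace ((br X a)ᴴ * b) = trace (aᴴ * br Xᴴ b) := by
  unfold br
  rw [Matrix.conjTranspose_sub, Matrix.conjTranspose_mul, Matrix.conjTranspose_mul, sub_mul, mul_sub,
    Matrix.trace_sub, Matrix.trace_sub]
  congr 1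
  · rw [mul_assoc]
  · rw [mul_assoc, Matrix.trace_mul_comm, mul_assoc]

omit [DecidableEq n] in
lemma ipm_dact (X : Matrix n n ℂ) (μ ν : n → Matrix n n ℂ) : ipm (dact X μ) ν = ipm μ (dact Xᴴ ν) := by
  unfold ipm dact
  have e1 : ∀ i, trace ((br X (μ i) - ∑ j, X j i • μ j)ᴴ * ν i) =
      trace ((μ i)ᴴ * br Xᴴ (ν i)) - ∑ j, star (X j i) * trace ((μ j)ᴴ * ν i) := by
    intro i
    rw [Matrix.conjTranspose_sub, sub_mul, Matrix.trace_sub, trace_br, Matrix.conjTranspose_sum, Finset.sum_mul,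
      Matrix.trace_sum]
    congr 1
    apply Finset.sum_congr rfl
    intro j _
    rw [Matrix.conjTranspose_smul, Matrix.smul_mul, Matrix.trace_smul, smul_eq_mul]
  have e2 : ∀ i, trace ((μ i)ᴴ * (br Xᴴ (ν i) - ∑ j, Xᴴ j i • ν j)) =
      trace ((μ i)ᴴ * br Xᴴ (ν i)) - ∑ j, star (X i j) * trace ((μ i)ᴴ * ν j) := by
    intro i
    rw [mul_sub, Matrix.trace_sub, Finset.mul_sum, Matrix.trace_sum]
    congr 1
    apply Finset.sum_congr rfl
    intro j _
    rw [Matrix.mul_smul, Matrix.trace_smul, smul_eq_mul, Matrix.conjTranspose_apply]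
  simp only [e1, e2]
  rw [Finset.sum_sub_distrib, Finset.sum_sub_distrib]
  congr 1
  exact Finset.sum_comm

omit [DecidableEq n] in
lemma br_sub_right (X a b : Matrix n n ℂ) : br X (a - b) = br X a - br X b := by
  unfold br
  rw [mul_sub, sub_mul]
  abel

omit [DecidableEq n] in
lemma br_sum_right (X : Matrix n n ℂ) (a : n → ℂ) (x : n → Matrix n n ℂ) :
    br X (∑ j, a j • x j) = ∑ j, a j • br X (x j) := by
  unfold br
  rw [Finset.mul_sum, Finset.sum_mul, ← Finset.sum_sub_distrib]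
  apply Finset.sum_congr rfl
  intro j _
  rw [Matrix.mul_smul, Matrix.smul_mul, smul_sub]

omit [DecidableEq n] in
lemma dact_dact (X Y : Matrix n n ℂ) (μ : n → Matrix n n ℂ) (i : n) :
    dact X (dact Y μ) i = br X (br Y (μ i)) - ∑ j, Y j i • br X (μ j) - ∑ j, X j i • br Y (μ j) +
      ∑ k, (Y * X) k i • μ k := by
  have e : ∀ Z (ν : n → Matrix n n ℂ) i, dact Z ν i = br Z (ν i) - ∑ j, Z j i • ν j := fun _ _ _ => rfl
  rw [e X, e Y, br_sub_right, br_sum_right]
  have h1 : (∑ j, X j i • dact Y μ j) = ∑ j, X j i • br Y (μ j) - ∑ k, (Y * X) k i • μ k := by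
    have h2 : ∀ j, X j i • dact Y μ j = X j i • br Y (μ j) - ∑ k, (Y k j * X j i) • μ k := by
      intro j
      rw [e Y, smul_sub, Finset.smul_sum]
      congr 1
      apply Finset.sum_congr rfl
      intro k _
      rw [smul_smul, mul_comm]
    simp only [h2]
    rw [Finset.sum_sub_distrib, Finset.sum_comm]
    congr 1
    apply Finset.sum_congr rfl
    intro k _
    rw [← Finset.sum_smul, Matrix.mul_apply]
  rw [h1]
  abel

omit [DecidableEq n] in
lemma dact_br (X Y : Matrix n n ℂ) (μ : n → Matrix n n ℂ) :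
    dact (br X Y) μ = dact X (dact Y μ) - dact Y (dact X μ) := by
  funext i
  rw [Pi.sub_apply, dact_dact, dact_dact]
  have e : dact (br X Y) μ i = br (br X Y) (μ i) - ∑ j, (br X Y) j i • μ j := rfl
  have h1 : br (br X Y) (μ i) = br X (br Y (μ i)) - br Y (br X (μ i)) := by
    unfold br
    noncomm_ring
  have h2 : (∑ j, (br X Y) j i • μ j) = ∑ k, (X * Y) k i • μ k - ∑ k, (Y * X) k i • μ k := by
    rw [← Finset.sum_sub_distrib]
    apply Finset.sum_congr rfl
    intro k _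
    rw [← sub_smul]
    rfl
  rw [e, h1, h2]
  abel

lemma trace_self (A : Matrix n n ℂ) : trace (Aᴴ * A) = ((‖A‖ ^ 2 : ℝ) : ℂ) := by
  have h1 : ‖A‖ ^ 2 = ∑ i, ∑ j, ‖A i j‖ ^ 2 := by
    rw [Matrix.frobenius_norm_def, ← Real.sqrt_eq_rpow, Real.sq_sqrt]
    · simp only [Real.rpow_two]
    · positivity
  rw [h1, Matrix.trace]
  push_cast
  rw [Finset.sum_comm]
  apply Finset.sum_congr rfl
  intro j _
  rw [Matrix.diag_apply, Matrix.mul_apply]
  apply Finset.sum_congr rfl
  intro i _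
  rw [Matrix.conjTranspose_apply, Complex.star_def, Complex.conj_mul']

theorem pCAL : StCAL := by
  intro n _ _
  have hinv : ∀ g : Matrix n n ℂ, IsUnit g → g⁻¹ * g = 1 := fun g hg =>
    Matrix.nonsing_inv_mul g ((Matrix.isUnit_iff_isUnit_det g).1 hg)
  refine ⟨fun g h μ _ _ => gact_mul g h μ, gact_one, ?_, ?_, ipm_dact, dact_br, ?_, ?_, ?_, ?_⟩
  · intro g μ hg hμ
    exact ⟨gact_anti g μ hμ.1, gact_jacobi g (hinv g hg) μ hμ.2⟩
  · intro g μ hg
    exact Kil_gact g (hinv g hg) μ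
  · intro X Y μ
    funext i
    have e : ∀ Z i, dact Z μ i = br Z (μ i) - ∑ j, Z j i • μ j := fun _ _ => rfl
    rw [Pi.add_apply, e, e, e]
    have h1 : br (X + Y) (μ i) = br X (μ i) + br Y (μ i) := by
      unfold br
      rw [add_mul, mul_add]
      abel
    have h2 : (∑ j, (X + Y) j i • μ j) = ∑ j, X j i • μ j + ∑ j, Y j i • μ j := by
      rw [← Finset.sum_add_distrib]
      apply Finset.sum_congr rfl
      intro j _
      rw [Matrix.add_apply, add_smul]
    rw [h1, h2]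
    abel
  · intro c X μ
    funext i
    have e : ∀ Z i, dact Z μ i = br Z (μ i) - ∑ j, Z j i • μ j := fun _ _ => rfl
    rw [Pi.smul_apply, e, e, smul_sub, Finset.smul_sum]
    congr 1
    · unfold br
      rw [Matrix.smul_mul, Matrix.mul_smul, smul_sub]
    · apply Finset.sum_congr rfl
      intro j _
      rw [Matrix.smul_apply, smul_smul, smul_eq_mul]
  · intro μ
    unfold ipm nsm
    push_cast
    apply Finset.sum_congr rfl
    intro i _
    rw [trace_self]
    push_cast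
    rfl
  · intro μ h
    unfold nsm at h
    rw [Finset.sum_eq_zero_iff_of_nonneg (fun i _ => by positivity)] at h
    funext i
    have h1 := h i (Finset.mem_univ i)
    exact norm_eq_zero.1 (by simpa using h1)

end Pool.Agent.Helper28.NO
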