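import Pool.Agent.Helper67.NO.St3

/-!
# Project NO, module CVX: convexity of the potential along Hermitian one-parameter groups
-/

set_option autoImplicit false

namespace Pool.Agent.Helper28.NO

open Matrix
open Pool.Agent.Helper67.NO
open scoped Matrix.Norms.Frobenius ContDiff Topology

variable {ι κ : Type} [Fintype ι] [DecidableEq ι] [Fintype κ] [DecidableEq κ]

/-- the curve `exp (s Y) A exp (-s Y)` -/
noncomputable def cv (A Y : Matrix ι ι ℂ) (s : ℝ) : Matrix ι ι ℂ :=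
  NormedSpace.exp (s • Y) * A * (NormedSpace.exp (s • Y))⁻¹

lemma exp_curve (Y : Matrix ι ι ℂ) (s₀ : ℝ) :
    HasDerivAt (fun s : ℝ => NormedSpace.exp ((s - s₀) • Y)) Y s₀ := by
  have h := hasDerivAt_exp_smul_const (𝕂 := ℝ) Y (0 : ℝ)
  rw [zero_smul, NormedSpace.exp_zero, one_mul] at h
  have h2 : HasDerivAt (fun u : ℝ => NormedSpace.exp (u • Y)) Y (s₀ - s₀) := by
    rw [sub_self]
    exact h
  exact h2.comp_sub_const s₀ s₀

lemma cv_shift (A Y : Matrix ι ι ℂ) (s₀ s : ℝ) :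
    NormedSpace.exp ((s - s₀) • Y) * cv A Y s₀ * (NormedSpace.exp ((s - s₀) • Y))⁻¹ = cv A Y s := by
  have h : NormedSpace.exp (s • Y) = NormedSpace.exp ((s - s₀) • Y) * NormedSpace.exp (s₀ • Y) := by
    rw [← Matrix.exp_add_of_commute]
    · rw [← add_smul]
      congr 2
      ring
    · exact (Commute.refl Y).smul_left _ |>.smul_right _
  unfold cv
  rw [h, Matrix.mul_inv_rev]
  simp only [mul_assoc]

lemma cv_zero (A Y : Matrix ι ι ℂ) : cv A Y 0 = A := by
  unfold cv
  rw [zero_smul, NormedSpace.exp_zero, one_mul, inv_one, mul_one]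

lemma cv_one (A Y : Matrix ι ι ℂ) : cv A Y 1 = NormedSpace.exp Y * A * NormedSpace.exp (-Y) := by
  unfold cv
  rw [one_smul, Matrix.exp_neg]

lemma cv_RT (h1 : StNIL) (lev : κ → ℕ) (A : Matrix ι ι ℂ) (hA : RT lev A) (Y : Matrix ι ι ℂ) (s : ℝ) :
    RT lev (cv A Y s) :=
  (h1 ι κ lev A hA).2.1 _ (Matrix.isUnit_exp _)

/-- the real linear form `M ↦ re tr (Y M)` -/
noncomputable def trl (Y : Matrix ι ι ℂ) : Matrix ι ι ℂ →ₗ[ℝ] ℝ where
  toFun M := (trace (Y * M)).re
  map_add' M N := by rw [mul_add, trace_add, Complex.add_re]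
  map_smul' c M := by
    rw [Matrix.mul_smul, trace_smul, RingHom.id_apply, Complex.real_smul, Complex.re_ofReal_mul, smul_eq_mul]

omit [DecidableEq κ] in
lemma deriv_phi (lev : κ → ℕ) (hI : IfA ι lev) (A Y : Matrix ι ι ℂ) (s₀ : ℝ) (hRT : RT lev (cv A Y s₀)) :
    HasDerivAt (fun s => rho lev (cv A Y s)) (2 * (trace (Y * Hm lev (cv A Y s₀))).re) s₀ := by
  have hF := ((hI.smooth _ hRT).differentiableAt (by simp)).hasFDerivAt
  have hG := exp_curve Y s₀
  have h := HasFDerivAt.comp_hasDerivAt_of_eq s₀ hF hG (by simp [NormedSpace.exp_zero])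
  have h := h.congr_deriv (hI.grad _ hRT Y)
  have e : ((fun g : Matrix ι ι ℂ => rho lev (g * cv A Y s₀ * g⁻¹)) ∘ fun s : ℝ => NormedSpace.exp ((s - s₀) • Y)) =
      fun s => rho lev (cv A Y s) := by
    funext s
    simp only [Function.comp_apply]
    rw [cv_shift]
  rw [e] at h
  exact h

omit [DecidableEq κ] in
lemma deriv_H (lev : κ → ℕ) (hI : IfA ι lev) (A Y : Matrix ι ι ℂ) (s₀ : ℝ) (hRT : RT lev (cv A Y s₀)) :
    HasDerivAt (fun s => Hm lev (cv A Y s)) (DHm lev (cv A Y s₀) Y) s₀ := by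
  have hF := ((hI.smoothH _ hRT).differentiableAt (by simp)).hasFDerivAt
  have hG := exp_curve Y s₀
  have h := HasFDerivAt.comp_hasDerivAt_of_eq s₀ hF hG (by simp [NormedSpace.exp_zero])
  have e : ((fun g : Matrix ι ι ℂ => Hm lev (g * cv A Y s₀ * g⁻¹)) ∘ fun s : ℝ => NormedSpace.exp ((s - s₀) • Y)) =
      fun s => Hm lev (cv A Y s) := by
    funext s
    simp only [Function.comp_apply]
    rw [cv_shift]
  rw [e] at h
  exact h

theorem pCVX (h1 : StNIL) : StCVX := by
  intro ι κ _ _ _ _ lev hI A hA Y hY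
  have hRT := cv_RT h1 lev A hA Y
  have hφ := fun s => deriv_phi lev hI A Y s (hRT s)
  have hψ : ∀ s : ℝ, HasDerivAt (fun s => 2 * (trace (Y * Hm lev (cv A Y s))).re)
      (2 * (trace (Y * DHm lev (cv A Y s) Y)).re) s := by
    intro s
    have h2 := ((LinearMap.toContinuousLinearMap (trl Y)).hasFDerivAt).comp_hasDerivAt s
      (deriv_H lev hI A Y s (hRT s))
    exact h2.const_mul 2
  have hnn : ∀ s : ℝ, 0 ≤ 2 * (trace (Y * DHm lev (cv A Y s) Y)).re := by
    intro s
    obtain ⟨B, hB⟩ := hI.bform _ (hRT s)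
    rw [hB.real Y Y hY hY]
    have := hB.nonneg Y
    linarith
  have hmono : Monotone (fun s : ℝ => 2 * (trace (Y * Hm lev (cv A Y s))).re) := by
    apply monotone_of_deriv_nonneg
    · exact fun s => (hψ s).differentiableAt
    · intro s
      rw [(hψ s).deriv]
      exact hnn s
  obtain ⟨ξ, hξ, he⟩ := exists_hasDerivAt_eq_slope (fun s => rho lev (cv A Y s))
    (fun s => 2 * (trace (Y * Hm lev (cv A Y s))).re) (zero_lt_one' ℝ)
    (fun s _ => (hφ s).continuousAt.continuousWithinAt) (fun s _ => hφ s)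
  have h3 := hmono hξ.1.le
  simp only [sub_zero, div_one] at he
  rw [cv_one] at he
  simp only [cv_zero] at he h3
  linarith

end Pool.Agent.Helper28.NO
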